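import Pool.Agent.Helper17.SV.Stmts

set_option autoImplicit false

open Finset

namespace Pool.Agent.Helper17.SV

open Pool.Agent.Helper17.SO

theorem st_C1 (hI : Pool.Agent.Helper17.SO.ST_INC) (hSC : Pool.Agent.Helper17.SO.ST_SELFC)
    (hBP : ST_BP) (hDUAL : ST_DUAL) (hNRM : ST_NRM) : ST_C1 := by
  intro v k lam n B hlam hk hkv hD hv hn q r g hq hq2 hgq hfix hAut p hp hpq hodd f hf
  obtain ⟨hlk, heq, hAA, hrow, hcol⟩ := hI v k lam B hlam hk hkv hD
  have hn1 : 1 ≤ n := by omega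
  have hAA' : inc B * (inc B).transpose = (n : ℤ) • (1 : Matrix (Fin v) (Fin v) ℤ) +
      (lam : ℤ) • Matrix.of (fun _ _ => (1 : ℤ)) := by
    rw [hAA]
    have : ((k : ℤ) - lam) = (n : ℤ) := by rw [hn]; push_cast; ring
    rw [this]
  have hdual := hDUAL v k n lam (inc B) hn1 hk hAA' hrow hcol
  obtain ⟨π, hπ, hπq⟩ := hBP v k lam B hlam hk hkv hD g hAut
  have hinv : ∀ a i, inc B (g a) (π i) = inc B a i := by
    intro a i
    simp only [inc, Matrix.of_apply, hπ]
  obtain ⟨m, b, hev, y, hy, hyy⟩ := hNRM v n lam q r (inc B) g π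
    (Complex.exp (2 * Real.pi * Complex.I / q)) hq hq2 hn1
    (Complex.isPrimitiveRoot_exp q hq.ne_zero) hinv hgq (hπq _ hgq) hAA' hdual
  have hyy' : y * (starRingEnd ℂ) y = ((n ^ m * q ^ b : ℕ) : ℂ) := by
    rw [hyy]
    push_cast
    rfl
  have hn0 : n ≠ 0 := by omega
  have h1 := hSC q p f (n ^ m * q ^ b) _ y hq hq2 hp hpq hf
    (Complex.isPrimitiveRoot_exp q hq.ne_zero) hy
    (Nat.one_le_iff_ne_zero.2 (mul_ne_zero (pow_ne_zero _ hn0) (pow_ne_zero _ hq.ne_zero))) hyy'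
  rw [Nat.factorization_mul (pow_ne_zero _ hn0) (pow_ne_zero _ hq.ne_zero), Nat.factorization_pow,
    Nat.factorization_pow, Finsupp.add_apply, Finsupp.smul_apply, Finsupp.smul_apply,
    smul_eq_mul, smul_eq_mul, hq.factorization, Finsupp.single_eq_of_ne hpq, mul_zero,
    add_zero] at h1
  have hm : Odd m := by
    have h2 : ¬ Even v := Nat.not_even_iff_odd.2 hv
    rw [Nat.even_add, Nat.even_add] at hev
    rw [← Nat.not_even_iff_odd]
    tauto
  exact (Nat.not_even_iff_odd.2 (hm.mul hodd)) h1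

end Pool.Agent.Helper17.SV
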